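import Pool.Agent.H.MP_702bfb_al.Main

namespace Pool.Agent.Results.MP_702bfb_al.Q1

theorem result : ∃ (R : Type) (_ : NonUnitalNonAssocRing R),
    (∀ x y : R, (x * y) * y = x * (y * y)) ∧
    (∀ x y z : R, ((x * y) * z) * y = x * ((y * z) * y)) ∧
    (∃ s : Finset R, NonUnitalSubring.closure (s : Set R) = ⊤) ∧
    (∀ x : R, x * x * x * x = 0) ∧
    ∀ D : ℕ → AddSubgroup R, D 0 = ⊤ →
      (∀ k : ℕ, D (k + 1) =
        AddSubgroup.closure {z : R | ∃ a ∈ D k, ∃ b ∈ D k, z = a * b}) →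
      ∀ m : ℕ, D m ≠ ⊥ :=
  Pool.Agent.H.MP_702bfb_al.main

end Pool.Agent.Results.MP_702bfb_al.Q1
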